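import Pool.Agent.H91.SX.Comb
import Pool.Agent.H91.SX.Ex
import Pool.Agent.H91.SX.Num
import Pool.Agent.H21.OS.Dual

/-!
# The exact constants of Bochner's method in all degrees

`R` is an algebraic curvature tensor on `ℝⁿ`, the sectional curvature of the plane of orthonormal
`x, y` is `R x y y x`, `R.scal` is the scalar curvature and `R.weitzForm ω = ⟨Ric ω, ω⟩` is the
quadratic form of the curvature term `Ric` of the Weitzenböck (Bochner) formula on `p`-forms.
Let `n ≥ 3`, `0 < p < n`, let `a` and `b` be the largest even integers with `a ≤ p` and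
`b ≤ n - p`, and `κ = a b / (3 p (n - p) (a + b) + n (n - 1) a b)`.

* If all sectional curvatures are at least `c`, then
  `Ric ≥ p (n - p) c - (a b / (3 (a + b))) (scal - n (n - 1) c)` on `p`-forms.
* If all sectional curvatures are larger than `κ scal`, then `Ric` is positive definite on
  `p`-forms.
* For some `R` with `scal > 0` and all sectional curvatures at least `κ scal`, the form
  `⟨Ric ω, ω⟩` vanishes at some `ω ≠ 0` (and the first bound is an equality there).
* `κ ≤ 1 / (n (n + 2))`, which is `κ` for `n` and `p` even; `κ ≤ (n - 3) / ((n - 1) (n² - 6))` for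
  odd `n`, which is `κ` for `p = 2`; `κ ≤ (n - 2) / (n (n² + 2))` for even `n` and odd `p`.

Proof: let all sectional curvatures be nonnegative, `|ω| = 1`, `F = ⟨Ric ω, ω⟩`, `s` the scalar
curvature and `r` the sum of `⟨Ric (e_i), e_j⟩ ⟨e_i ⌟ ω, e_j ⌟ ω⟩`. Then `3 F ≥ - p (s - r)`
(that is the inequality of `BochnerPinching` with one term kept) and, if `k = n - p` is odd,
`3 F ≥ - (k - 1) r`, the inequality of `SharpOddCodegree`. The Hodge star turns `r` into `s - r`,
`p` into `n - p` and keeps `F`, so `3 F ≥ - a (s - r)` and `3 F ≥ - b r` in all cases, and a convex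
combination gives `3 F ≥ - a b s / (a + b)`. Equality holds for `ω = Ω^(a/2)` or
`e_1 ∧ Ω^(a/2)`, for a skew map of rank `a + b` and its curvature tensor.
-/

namespace Pool.Agent.Results.MP_d8ed74_gt.ExactConstants

open Pool.Agent.H61.YP Pool.Agent.H8.RG
open scoped RealInnerProductSpace

theorem result (n p a b : ℕ) (h3 : 3 ≤ n) (hp : 0 < p) (hpn : p < n)
    (ha : Even a) (hap : a ≤ p) (hpa : p ≤ a + 1)
    (hb : Even b) (hbk : b ≤ n - p) (hkb : n - p ≤ b + 1)
    (κ : ℝ) (hκ : κ = (a : ℝ) * b / (3 * (p * ((n : ℝ) - p)) * ((a : ℝ) + b)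
      + (n : ℝ) * ((n : ℝ) - 1) * (a * b))) :
    (∀ (R : CurvTensor n) (c : ℝ), SecGe R c → ∀ ω : Form n p,
        ((p : ℝ) * ((n : ℝ) - p) * c
          - ((a : ℝ) * b / (3 * ((a : ℝ) + b))) * (R.scal - (n : ℝ) * ((n : ℝ) - 1) * c)) * ip ω ω
          ≤ R.weitzForm ω) ∧
    (∀ R : CurvTensor n, SecGt R (κ * R.scal) → ∀ ω : Form n p, ω ≠ 0 → 0 < R.weitzForm ω) ∧
    (∃ (R : CurvTensor n) (ω : Form n p), 0 < R.scal ∧ SecGe R (κ * R.scal) ∧ ω ≠ 0 ∧
      R.weitzForm ω = 0) ∧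
    κ ≤ 1 / ((n : ℝ) * (n + 2)) ∧
    (Odd n → κ ≤ ((n : ℝ) - 3) / (((n : ℝ) - 1) * (n ^ 2 - 6))) ∧
    (Even n → Odd p → κ ≤ ((n : ℝ) - 2) / ((n : ℝ) * (n ^ 2 + 2))) := by
  have hD : ∀ q : ℕ, p = q + 2 → Odd p → Pool.Agent.H91.SX.DualB n q := by
    intro q hq ho w h hpos ω
    obtain ⟨k, hk⟩ : ∃ k, n = k + q + 2 := ⟨n - (q + 2), by omega⟩
    exact Pool.Agent.H21.OS.dual_sharp h hpos k q (hq ▸ ho) hk (by omega) ω
  have hab : 0 < a + b := by
    rcases ha with ⟨c, rfl⟩
    rcases hb with ⟨d, rfl⟩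
    omega
  subst hκ
  refine ⟨fun R c hc ω => ?_, fun R h ω hω => ?_, ?_, ?_, fun hn => ?_, fun hn ho => ?_⟩
  · exact Pool.Agent.H91.SX.lower_all n p a b hp hpn ha hap hpa hb hbk hkb hD R c hc ω
  · exact Pool.Agent.H91.SX.pos_all_deg n p a b h3 hp hpn ha hap hpa hb hbk hkb hD R h ω hω
  · exact Pool.Agent.H91.SX.sharp_all n p a b h3 hp hpn ha hap hpa hb hbk hkb
  · exact Pool.Agent.H91.SX.num_all n p a b hp hpn hap hbk hab
  · exact Pool.Agent.H91.SX.num_odd n p a b h3 hn hp hpn ha hap hpa hb hbk hkb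
  · exact Pool.Agent.H91.SX.num_even n p a b hn ho hp hpn ha hap hpa hb hbk hkb h3

end Pool.Agent.Results.MP_d8ed74_gt.ExactConstants
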