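import Pool.Agent.H91.AR.Fin
import Pool.Agent.H91.OR.H

/-!
# Rigidity at the exact constants of Bochner's method

`R` is an algebraic curvature tensor on `ℝⁿ`, `2 ≤ p ≤ n - 2`, and `p` or `n - p` is even: every
such degree if `n` is odd, every even one if `n` is even. `a` and `b` are the largest even
integers `≤ p` and `≤ n - p`, and `κ = a b / (3 p (n - p) (a + b) + n (n - 1) a b)` is the exact
constant of `ExactConstants` in degree `p`.

* If `R ≠ 0`, all sectional curvatures are at least `κ scal` and the curvature term `Ric` of the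
  Weitzenböck formula on `p`-forms is not positive definite, then `R` is one explicit tensor, up
  to a factor and a rotation; and conversely. For `n` even it is the tensor of the complex
  projective space.
* For `n` odd every form `ω ≠ 0` with `⟨Ric ω, ω⟩ ≤ 0` satisfies `R(x, y) ω ≠ 0` for some
  `x, y`, so it is not the value of a parallel form. Hence (Bochner's method, not formalised) the
  `p`-th Betti number of a closed orientable manifold of odd dimension, not flat, vanishes
  already if `sec ≥ κ scal`.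
* Almost rigidity, by compactness.

Proof, for `p` even (the Hodge star exchanges `p` and `n - p`): let `W = R - κ scal S`, `S` the
tensor of the unit sphere, and `⟨Ric ω, ω⟩ ≤ 0`. The two inequalities behind `ExactConstants` are
equalities at `ω`, so `ω` is an eigenvector of the derivation of the Ricci tensor of `W`, and
`W(v, x) x ∧ (x ⌟ ω) = 0` for all `x, v`. If the Jacobi operator of some `x` has rank `≥ 2`, this
gives `W(v, x) x ∧ ω = 0` for all `x, v`, against the eigenvalue. So all of them have rank `≤ 1`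
and `W(x, y, y, x) = ⟨T x, y⟩²` with `T` skew. The eigenvalue forces `T³ = -g T` and the rank
`a + b`.
-/

namespace Pool.Agent.Results.MP_d8ed74_gt.ExactRigidity

open Pool.Agent.H61.YP Pool.Agent.H8.RG Pool.Agent.H91.OR Pool.Agent.H91.AR
open scoped RealInnerProductSpace

theorem result (n p a b : ℕ) (h2 : 2 ≤ p) (hpn : p + 2 ≤ n) (hpar : Even p ∨ Even (n - p))
    (ha : a = 2 * (p / 2)) (hb : b = 2 * ((n - p) / 2)) (κ : ℝ)
    (hκ : κ = (a : ℝ) * b / (3 * (p * ((n : ℝ) - p)) * ((a : ℝ) + b)
      + (n : ℝ) * ((n : ℝ) - 1) * (a * b))) :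
    (∀ R : CurvTensor n, (NonZero R ∧ SecGe R (κ * R.scal) ∧ NotPos R p) ↔
      IsModel R ((a : ℝ) * b / (p * ((n : ℝ) - p))) ((a : ℝ) + b)) ∧
    (Odd n → ∀ R : CurvTensor n, NonZero R → SecGe R (κ * R.scal) →
      ∀ ω : Form n p, ω ≠ 0 → R.weitzForm ω ≤ 0 →
        ∃ (x y : E n) (v : Fin p → E n), R.act ω x y v ≠ 0) ∧
    (∀ ε : ℝ, 0 < ε → ∃ δ : ℝ, δ < κ ∧ ∀ R : CurvTensor n, 0 < R.scal →
      SecGe R (δ * R.scal) → NotPos R p → ∃ S : CurvTensor n,
        IsModel S ((a : ℝ) * b / (p * ((n : ℝ) - p))) ((a : ℝ) + b) ∧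
          Close R S (ε * R.scal)) := by
  subst hκ
  have ha1 : Even a := by rw [ha]; exact even_two_mul _
  have hb1 : Even b := by rw [hb]; exact even_two_mul _
  have hap : a ≤ p := by omega
  have hpa : p ≤ a + 1 := by omega
  have hbk : b ≤ n - p := by omega
  have hkb : n - p ≤ b + 1 := by omega
  have hrig := rigid_all n p a b h2 hpn hpar ha1 hap hpa hb1 hbk hkb
  refine ⟨fun R => ⟨fun ⟨h1, h2, h3⟩ => hrig R h1 h2 h3, fun h => ?_⟩, ?_, ?_⟩
  · exact model_all n p a b h2 hpn ha1 hap hpa hb1 hbk hkb R h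
  · intro hn R hR hsec ω hω hw
    exact act_all n p a b h2 hpn hn ha1 hap hb1 hbk R (hrig R hR hsec ⟨ω, hω, hw⟩)
      (by omega) (by omega) ω hω
  · intro ε hε
    exact almost_gen n p (by omega) (by omega) _
      (fun S => IsModel S ((a : ℝ) * b / (p * ((n : ℝ) - p))) ((a : ℝ) + b))
      (fun S t ht hS => model_smul' S t _ _ ht hS)
      (fun R h1 h2 h3 => hrig R h1 h2 h3) ε hε

end Pool.Agent.Results.MP_d8ed74_gt.ExactRigidity
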